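import Pool.Agent.Helper88.CG.Goals
import Pool.Agent.Helper37.PP.HM

set_option autoImplicit false

open Finset Filter Topology

open scoped Classical

namespace Pool.Agent.Helper90.CG

open Pool.Agent.Helper88.PP (pr Rg om Sf SS uu vv ee LA VV QQ cost)
open Pool.Agent.Helper88.GM (NI XI gB Sr In)
open Pool.Agent.Helper88.CG

theorem om_nn (y z : ℕ) : 0 ≤ om y z := by
  unfold om
  refine Finset.prod_nonneg fun p hp => ?_
  have h1 : Nat.Prime p := (Finset.mem_filter.1 hp).2
  have h2 : (1 : ℝ) ≤ p := by exact_mod_cast h1.one_lt.le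
  have h3 : 1 / (p : ℝ) ≤ 1 := by
    rw [div_le_one (by linarith)]
    exact h2
  linarith

theorem a4 : StmtA4 := by
  obtain ⟨C1, hC1, hmp⟩ := Pool.Agent.Helper37.PP.mp
  refine ⟨4 * C1 ^ 2, by positivity, 40, ?_⟩
  intro E z x y hE hS
  obtain ⟨h1, h2, h3, h4, h5, h6⟩ := hS
  have hE40 : (40 : ℝ) ≤ E := by exact_mod_cast hE
  have hzpos : (0 : ℝ) < z := (Real.exp_pos _).trans_le h1
  have hlz : (E : ℝ) ≤ Real.log z := by
    rw [Real.le_log_iff_exp_le hzpos]
    exact h1
  have hz2r : (2 : ℝ) ≤ z := by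
    have := Real.add_one_le_exp (E : ℝ)
    linarith
  have hz2 : 2 ≤ z := by exact_mod_cast hz2r
  have hxz : (z : ℝ) ^ E ≤ x := by exact_mod_cast h2
  have hxpos : (0 : ℝ) < x := (pow_pos hzpos E).trans_le hxz
  set L := Real.log x with hL
  have hL1 : (E : ℝ) * Real.log z ≤ L := by
    have := Real.log_le_log (pow_pos hzpos E) hxz
    rwa [Real.log_pow] at this
  have hL2 : (1600 : ℝ) ≤ L := by
    nlinarith
  have hL3 : L ≤ 2 * E * Real.log z := by
    have e1 : (x : ℝ) ≤ ((z : ℝ) + 1) ^ E := by
      have : x ≤ (z + 1) ^ E := h3.le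
      exact_mod_cast this
    have e2 := Real.log_le_log hxpos e1
    rw [Real.log_pow] at e2
    have e3 : Real.log ((z : ℝ) + 1) ≤ 2 * Real.log z := by
      have : (z : ℝ) + 1 ≤ z ^ 2 := by nlinarith
      have e4 := Real.log_le_log (by linarith) this
      rw [Real.log_pow] at e4
      exact_mod_cast e4
    have e5 : (E : ℝ) * Real.log ((z : ℝ) + 1) ≤ E * (2 * Real.log z) :=
      mul_le_mul_of_nonneg_left e3 (by linarith)
    linarith
  set l := Real.log L with hl
  have hLpos : 0 < L := by linarith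
  have hl2 : 2 ≤ l := by
    rw [hl, Real.le_log_iff_exp_le hLpos]
    have e1 := Real.exp_one_lt_d9
    have e2 : Real.exp 2 = Real.exp 1 * Real.exp 1 := by
      rw [← Real.exp_add]
      norm_num
    have e3 := Real.exp_pos 1
    rw [e2]
    nlinarith
  have hexpl : Real.exp l = L := Real.exp_log hLpos
  have hy2 : 2 ≤ y := by
    have : (2 : ℝ) ≤ y := by linarith
    exact_mod_cast this
  have hyz : y ≤ z := by
    have e1 : (y : ℝ) ≤ Real.exp (2 * l) := by
      have : Real.exp (2 * l) = L ^ 2 := by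
        rw [two_mul, Real.exp_add, hexpl]
        ring
      rw [this]
      exact h5
    have e2 : 2 * l ≤ E := by
      refine le_trans ?_ h6
      have : l ^ 3 = l ^ 2 * l := by ring
      rw [this]
      have e4 : 2 ≤ l ^ 2 := by nlinarith
      exact mul_le_mul_of_nonneg_right e4 (by linarith)
    have e3 : (y : ℝ) ≤ z := e1.trans ((Real.exp_le_exp.2 e2).trans h1)
    exact_mod_cast e3
  have hly : Real.log y ≤ 2 * l := by
    have e1 := Real.log_le_log (by linarith : (0 : ℝ) < y) h5
    rw [Real.log_pow] at e1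
    exact_mod_cast e1
  have hlzpos : 0 < Real.log z := by linarith
  have hA : om y z ≤ 4 * C1 * l * (E / L) := by
    refine (hmp y z hy2 hyz).trans ?_
    have e1 : Real.log y / Real.log z ≤ 2 * l * (2 * E / L) := by
      rw [div_le_iff₀ hlzpos]
      have e2 : 1 ≤ (2 * E / L) * Real.log z := by
        rw [div_mul_eq_mul_div, one_le_div hLpos]
        exact hL3
      calc Real.log y ≤ 2 * l * 1 := by linarith
        _ ≤ 2 * l * ((2 * E / L) * Real.log z) := by
            exact mul_le_mul_of_nonneg_left e2 (by linarith)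
        _ = _ := by ring
    calc C1 * (Real.log y / Real.log z) ≤ C1 * (2 * l * (2 * E / L)) :=
          mul_le_mul_of_nonneg_left e1 hC1.le
      _ = _ := by ring
  set w := ⌊L / 20⌋₊ with hw
  have hw1 : L / 40 ≤ w := by
    have := Nat.lt_floor_add_one (L / 20)
    have : L / 20 < (w : ℝ) + 1 := this
    linarith
  have hw2 : 2 ≤ w := by
    have : (2 : ℝ) ≤ w := by linarith
    exact_mod_cast this
  have hlw : l / 2 ≤ Real.log w := by
    have e1 : Real.sqrt L ≤ L / 40 := by
      rw [Real.sqrt_le_left (by linarith)]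
      nlinarith
    have e2 : l / 2 = Real.log (Real.sqrt L) := by
      rw [Real.log_sqrt hLpos.le]
    rw [e2]
    exact Real.log_le_log (Real.sqrt_pos.2 hLpos) (e1.trans hw1)
  have hB : (Nat.totient (QQ x) : ℝ) / QQ x ≤ C1 / l := by
    have e0 : QQ x = primorial w := rfl
    rw [e0, Pool.Agent.Helper37.PP.totient_primorial w hw2]
    have e1 := hmp 2 w le_rfl hw2
    have e2 : Real.log ((2 : ℕ) : ℝ) / Real.log w ≤ 2 / l := by
      have e3 : Real.log ((2 : ℕ) : ℝ) ≤ 1 := by
        have := Real.log_two_lt_d9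
        push_cast
        linarith
      have e4 : 0 < Real.log w := by linarith
      rw [div_le_div_iff₀ e4 (by linarith)]
      nlinarith
    calc (1 / 2 : ℝ) * om 2 w ≤ (1 / 2) * (C1 * (Real.log ((2 : ℕ) : ℝ) / Real.log w)) := by
          linarith
      _ ≤ (1 / 2) * (C1 * (2 / l)) := by
          have := mul_le_mul_of_nonneg_left e2 hC1.le
          linarith
      _ = C1 / l := by ring
  have hB0 : 0 ≤ (Nat.totient (QQ x) : ℝ) / QQ x := by positivity
  have hl0 : (0 : ℝ) < l := by linarith
  calc om y z * ((Nat.totient (QQ x) : ℝ) / QQ x)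
      ≤ (4 * C1 * l * (E / L)) * (C1 / l) := by
        refine mul_le_mul hA hB hB0 ?_
        have : 0 ≤ (E : ℝ) / L := by positivity
        positivity
    _ = 4 * C1 ^ 2 * (E / L) := by
        field_simp

end Pool.Agent.Helper90.CG
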